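import Pool.Agent.W251.GX.Defs

/-! Project GX, task GX-SCA: a set which meets all sectors between elements with different values
of `F` is large. -/

set_option autoImplicit false

namespace Pool.Agent.W369.GX

open Finset Filter Pool.Agent.H376R2.MR Pool.Agent.W78.GA
open Pool.Agent.W84.FP (Gi)
open Pool.Agent.W251.GX (Cm mass HitAB S_PD S_A0U S_SCA)

variable {t c : ℤ}

lemma bg_nn (Y : ℝ) (z : Qd t c) : 0 ≤ bg Y z := by
  unfold bg
  refine div_nonneg ?_ (Nat.cast_nonneg _)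
  unfold w
  exact le_max_left _ _

lemma mass_nn (p : Qd t c → Prop) (Y : ℝ) : 0 ≤ mass p Y := by
  unfold mass
  refine Finset.sum_nonneg fun z _ => ?_
  split_ifs
  · exact bg_nn Y z
  · exact le_refl _

lemma mass_mono (p q : Qd t c → Prop) (Y : ℝ) (h : ∀ z, prim z → p z → q z) :
    mass p Y ≤ mass q Y := by
  unfold mass
  refine Finset.sum_le_sum fun z hz => ?_
  have hz' : prim z := by
    unfold pball at hz
    exact (Finset.mem_filter.1 hz).2
  by_cases hp : p z
  · rw [if_pos hp, if_pos (h z hz' hp)]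
  · rw [if_neg hp]
    split_ifs
    · exact bg_nn Y z
    · exact le_refl _

lemma mass_split (F : Qd t c → ℂ) (p : Qd t c → Prop) (Y : ℝ) (S : Finset ℂ)
    (hS : ∀ z, F z ∈ S) :
    mass p Y = ∑ a ∈ S, mass (fun z => F z = a ∧ p z) Y := by
  unfold mass
  rw [Finset.sum_comm]
  refine Finset.sum_congr rfl fun z _ => ?_
  rw [Finset.sum_eq_single (F z)]
  · by_cases hp : p z
    · rw [if_pos hp, if_pos ⟨rfl, hp⟩]
    · rw [if_neg hp, if_neg (fun h => hp h.2)]
  · intro b _ hb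
    rw [if_neg (fun h => hb h.1.symm)]
  · intro h
    exact absurd (hS z) h

lemma nm_pos_of_prim {u : Gi} (hu : prim u) : 1 ≤ nm u := by
  by_contra h
  have h0 : nm u = 0 := by omega
  have h1 : u.re ^ 2 + 0 * u.re * u.im + 1 * u.im ^ 2 = 0 := Int.natAbs_eq_zero.1 h0
  have h2 : u.re = 0 := by nlinarith [sq_nonneg u.re, sq_nonneg u.im]
  have h3 : u.im = 0 := by nlinarith [sq_nonneg u.re, sq_nonneg u.im]
  unfold prim at hu
  rw [h2, h3] at hu
  simp at hu

theorem sca (hpd : S_PD 0 1) (ha : S_A0U) : S_SCA := by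
  intro N F hF hF1 hu
  obtain ⟨u, hu, hFu⟩ := hu
  obtain ⟨c₀, hc₀, Y₁, hY₁⟩ := ha u hu
  have hN1 : 1 ≤ N := hF.pos
  have hN1' : (1 : ℝ) ≤ N := by exact_mod_cast hN1
  have hF0 : ∀ z, F z ≠ 0 := by
    intro z h0
    have := hF.pow z
    rw [h0, zero_pow (by omega)] at this
    exact zero_ne_one this
  have hFone : F 1 = 1 := by
    have h := hF.mul 1 1 one_ne_zero one_ne_zero
    rw [mul_one] at h
    exact (mul_eq_left₀ (hF0 1)).1 h.symm
  set L : ℝ := Real.exp 1 * nm u with hL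
  have hnu : (1 : ℝ) ≤ nm u := by exact_mod_cast nm_pos_of_prim hu
  have hLpos : 0 < L := mul_pos (Real.exp_pos _) (by linarith)
  set ε' : ℝ := c₀ ^ 2 / (2 * (N : ℝ) ^ 2) with hε'
  have hε'pos : 0 < ε' := by positivity
  have hre : (1 : Gi).re = 1 := rfl
  have him : (1 : Gi).im = 0 := rfl
  have hp1 : prim (1 : Gi) := by
    unfold prim
    rw [hre, him]
    rfl
  have hn1 : nm (1 : Gi) = 1 := by
    unfold nm
    rw [hre, him]
    rfl
  have hL1 : Real.exp 1 * ((nm (1 : Gi) : ℕ) : ℝ) ≤ L := by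
    rw [hn1, hL]
    refine mul_le_mul_of_nonneg_left ?_ (Real.exp_pos _).le
    push_cast
    exact hnu
  obtain ⟨δ₁, hδ₁, Y₂, h₂⟩ := hpd N F hF hF1 u L ε' hu le_rfl hε'pos
  obtain ⟨δ₂, hδ₂, Y₃, h₃⟩ := hpd N F hF hF1 1 L ε' hp1 hL1 hε'pos
  refine ⟨min δ₁ δ₂ / L, div_pos (lt_min hδ₁ hδ₂) hLpos, L * max (max Y₁ 0) (max Y₂ Y₃), ?_⟩
  intro X B hX hB0 hHit
  by_contra hlt
  push Not at hlt
  set Y : ℝ := X / L with hY
  have hXY : L * Y = X := by rw [hY]; field_simp
  have hYm : max (max Y₁ 0) (max Y₂ Y₃) ≤ Y := by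
    rw [hY, le_div_iff₀ hLpos]; linarith
  have hy1 : Y₁ ≤ Y := (le_max_left _ _).trans ((le_max_left _ _).trans hYm)
  have hy0 : 0 ≤ Y := (le_max_right _ _).trans ((le_max_left _ _).trans hYm)
  have hy2 : Y₂ ≤ Y := (le_max_left _ _).trans ((le_max_right _ _).trans hYm)
  have hy3 : Y₃ ≤ Y := (le_max_right _ _).trans ((le_max_right _ _).trans hYm)
  have hcard : (B.card : ℝ) ≤ min δ₁ δ₂ * Y := by
    have e : min δ₁ δ₂ / L * X = min δ₁ δ₂ * Y := by rw [hY]; ring
    rw [← e]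
    exact hlt.le
  have hc1 : (B.card : ℝ) ≤ δ₁ * Y :=
    hcard.trans (mul_le_mul_of_nonneg_right (min_le_left _ _) hy0)
  have hc2 : (B.card : ℝ) ≤ δ₂ * Y :=
    hcard.trans (mul_le_mul_of_nonneg_right (min_le_right _ _) hy0)
  have hHit' : ∀ a b : ℂ, a ≠ b → HitAB F a b (L * Y) B := by
    rw [hXY]; exact hHit
  have key : ∀ a b : ℂ, b ^ N = 1 →
      mass (fun z => F z = a) Y * mass (fun z => F z = b ∧ prim (u * z)) Y ≤ ε' := by
    intro a b hb
    by_cases hab : a = F u * b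
    · have hb0 : b ≠ 0 := by
        intro h0
        rw [h0, zero_pow (by omega)] at hb
        exact zero_ne_one hb
      have hne : a ≠ F 1 * b := by
        rw [hFone, one_mul, hab]
        intro h
        exact hFu ((mul_eq_right₀ hb0).1 h)
      have h := h₃ Y B a b hy3 hB0 hc2 hne (hHit' _ _ hne)
      refine le_trans (mul_le_mul_of_nonneg_left ?_ (mass_nn _ _)) h
      refine mass_mono _ _ _ fun z hz hp => ⟨hp.1, ?_⟩
      rw [one_mul]
      exact hz
    · exact h₂ Y B a b hy2 hB0 hc1 hab (hHit' _ _ hab)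
  set S : Finset ℂ := Polynomial.nthRootsFinset N (1 : ℂ) with hS
  have hmemS : ∀ a : ℂ, a ∈ S ↔ a ^ N = 1 := by
    intro a
    rw [hS]
    exact Polynomial.mem_nthRootsFinset (by omega) 1
  have hFS : ∀ z, F z ∈ S := fun z => (hmemS _).2 (hF.pow z)
  have hScard : (S.card : ℝ) ≤ N := by
    have : S.card ≤ N := by
      rw [hS, Polynomial.nthRootsFinset_def]
      exact (Multiset.toFinset_card_le _).trans (Polynomial.card_nthRoots N 1)
    exact_mod_cast this
  have hm1 : mass (fun _ : Gi => True) Y = ∑ a ∈ S, mass (fun z => F z = a) Y := by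
    rw [mass_split F (fun _ => True) Y S hFS]
    refine Finset.sum_congr rfl fun a _ => ?_
    congr 1
    funext z
    simp
  have hm2 : mass (fun z : Gi => prim (u * z)) Y =
      ∑ b ∈ S, mass (fun z => F z = b ∧ prim (u * z)) Y :=
    mass_split F (fun z => prim (u * z)) Y S hFS
  have hge2 : c₀ ≤ mass (fun z : Gi => prim (u * z)) Y := hY₁ Y hy1
  have hge1 : c₀ ≤ mass (fun _ : Gi => True) Y :=
    hge2.trans (mass_mono _ _ _ fun _ _ _ => trivial)
  have hprod : c₀ * c₀ ≤ mass (fun _ : Gi => True) Y * mass (fun z : Gi => prim (u * z)) Y :=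
    mul_le_mul hge1 hge2 hc₀.le (hc₀.le.trans hge1)
  have hup : mass (fun _ : Gi => True) Y * mass (fun z : Gi => prim (u * z)) Y ≤
      (N : ℝ) * N * ε' := by
    rw [hm1, hm2, Finset.sum_mul_sum]
    calc ∑ i ∈ S, ∑ j ∈ S, mass (fun z => F z = i) Y *
          mass (fun z => F z = j ∧ prim (u * z)) Y
        ≤ ∑ i ∈ S, ∑ j ∈ S, ε' :=
          Finset.sum_le_sum fun i _ => Finset.sum_le_sum fun j hj => key i j ((hmemS j).1 hj)
      _ = (S.card : ℝ) * S.card * ε' := by
          rw [Finset.sum_const, Finset.sum_const, nsmul_eq_mul, nsmul_eq_mul]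
          ring
      _ ≤ (N : ℝ) * N * ε' := by
          refine mul_le_mul_of_nonneg_right ?_ hε'pos.le
          exact mul_le_mul hScard hScard (Nat.cast_nonneg _) (by linarith)
  have hval : (N : ℝ) * N * ε' = c₀ * c₀ / 2 := by
    rw [hε']
    field_simp
  have : 0 < c₀ * c₀ := mul_pos hc₀ hc₀
  linarith

end Pool.Agent.W369.GX
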